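import Mathlib
import Pool.Agent.Lib_helper80.CP.Forest

/-!
# CX: closed chains at a regular cardinal, and the decomposition of powers of `ω`
-/

set_option autoImplicit false
set_option linter.unusedSectionVars false

open Cardinal Ordinal Set

namespace Pool.Agent.CX

open Pool.Agent.H68.OG Pool.Agent.CP

/-- `λ` closed chains contain `λ` many with pairwise disjoint remainders over a common chain. -/
theorem node_reg {V : Type} {out : V → Finset V} (hT : Tr out) {I : Type} {lam : Cardinal.{0}}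
    (hlam : lam.IsRegular) (R : I → Finset V) (hR : ∀ i, Cl out (R i)) (I0 : Set I)
    (hI0 : lam ≤ #I0) :
    ∃ (Z : Set I) (K : Finset V), Z ⊆ I0 ∧ lam ≤ #Z ∧ Cl out K ∧ (∀ i ∈ Z, K ⊆ R i) ∧
      ∀ i ∈ Z, ∀ j ∈ Z, i ≠ j → ∀ x ∈ R i, x ∈ R j → x ∈ K := by
  classical
  have hex : ∃ K : Finset V, Cl out K ∧ lam ≤ #{i | i ∈ I0 ∧ K ⊆ R i} ∧
      ∀ p, out p = K → #{i | i ∈ I0 ∧ p ∈ R i} < lam := by
    by_contra hcon
    push Not at hcon
    have step : ∀ K : {K : Finset V // Cl out K ∧ lam ≤ #{i | i ∈ I0 ∧ K ⊆ R i}},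
        ∃ p, out p = K.1 ∧ lam ≤ #{i | i ∈ I0 ∧ p ∈ R i} := by
      rintro ⟨K, hK1, hK2⟩
      exact hcon K hK1 hK2
    choose p hp1 hp2 using step
    let nxt : {K : Finset V // Cl out K ∧ lam ≤ #{i | i ∈ I0 ∧ K ⊆ R i}} →
        {K : Finset V // Cl out K ∧ lam ≤ #{i | i ∈ I0 ∧ K ⊆ R i}} := fun K =>
      ⟨insert (p K) K.1, by
        refine ⟨⟨?_, ?_⟩, ?_⟩
        · intro x hx
          rcases Finset.mem_insert.1 hx with rfl | hx
          · rw [hp1 K]
            exact Finset.subset_insert _ _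
          · exact (K.2.1.1 x hx).trans (Finset.subset_insert _ _)
        · intro x hx y hy
          rcases Finset.mem_insert.1 hx with e | hx
          · rcases Finset.mem_insert.1 hy with e' | hy
            · exact Or.inl (e.trans e'.symm)
            · refine Or.inr (Or.inr ?_)
              rw [e, hp1 K]
              exact hy
          · rcases Finset.mem_insert.1 hy with e' | hy
            · refine Or.inr (Or.inl ?_)
              rw [e', hp1 K]
              exact hx
            · exact K.2.1.2 x hx y hy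
        · refine (hp2 K).trans (Cardinal.mk_le_mk_of_subset ?_)
          rintro m ⟨hm0, hm⟩
          refine ⟨hm0, ?_⟩
          intro x hx
          rcases Finset.mem_insert.1 hx with rfl | hx
          · exact hm
          · refine (hR m).1 (p K) hm ?_
            rw [hp1 K]
            exact hx⟩
    let K0 : {K : Finset V // Cl out K ∧ lam ≤ #{i | i ∈ I0 ∧ K ⊆ R i}} :=
      ⟨∅, ⟨by simp, by simp⟩, by simpa using hI0⟩
    let Ks : ℕ → {K : Finset V // Cl out K ∧ lam ≤ #{i | i ∈ I0 ∧ K ⊆ R i}} :=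
      fun n => Nat.rec K0 (fun _ K => nxt K) n
    refine hT.fin ⟨fun n => p (Ks n), fun n => ?_⟩
    show p (Ks n) ∈ out (p (Ks (n + 1)))
    rw [hp1 (Ks (n + 1))]
    exact Finset.mem_insert_self _ _
  obtain ⟨K, hK1, hK2, hK3⟩ := hex
  by_cases hI : lam ≤ #{i | i ∈ I0 ∧ R i = K}
  · refine ⟨_, K, fun m hm => hm.1, hI, hK1, ?_, ?_⟩
    · rintro m ⟨-, hm⟩
      rw [hm]
    · rintro i ⟨-, hi⟩ j - - x hx -
      rwa [hi] at hx
  · rw [not_le] at hI
    have hJ : lam ≤ #{i | i ∈ I0 ∧ K ⊆ R i ∧ R i ≠ K} := by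
      by_contra hcon
      rw [not_le] at hcon
      refine absurd hK2 (not_le.2 ?_)
      refine (Cardinal.mk_le_mk_of_subset (t := {i | i ∈ I0 ∧ R i = K} ∪
        {i | i ∈ I0 ∧ K ⊆ R i ∧ R i ≠ K}) ?_).trans_lt
        ((Cardinal.mk_union_le _ _).trans_lt (Cardinal.add_lt_of_lt hlam.1 hI hcon))
      rintro i ⟨hi, hi'⟩
      by_cases h : R i = K
      · exact Or.inl ⟨hi, h⟩
      · exact Or.inr ⟨hi, hi', h⟩
    have hy : ∀ i : {i | i ∈ I0 ∧ K ⊆ R i ∧ R i ≠ K}, ∃ y : V, y ∈ R i.1 ∧ out y = K :=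
      fun i => Cl.next hT (hR i.1) hK1 i.2.2.1 i.2.2.2
    choose y hy1 hy2 using hy
    have himg : lam ≤ #(Set.range y) := by
      by_contra hcon
      rw [not_le] at hcon
      refine absurd hJ (not_le.2 ?_)
      have h1 : #(⋃ q : Set.range y, {i | i ∈ I0 ∧ q.1 ∈ R i}) < lam := by
        rw [Cardinal.card_iUnion_lt_iff_forall_of_isRegular hlam hcon]
        rintro ⟨_, ⟨i, rfl⟩⟩
        exact hK3 _ (hy2 i)
      refine (Cardinal.mk_le_mk_of_subset ?_).trans_lt h1
      intro i hi
      exact Set.mem_iUnion.2 ⟨⟨y ⟨i, hi⟩, ⟨i, hi⟩, rfl⟩, hi.1, hy1 ⟨i, hi⟩⟩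
    have hc : ∀ q : Set.range y, ∃ i, y i = q.1 := fun q => q.2
    choose c hc using hc
    have hcinj : Function.Injective (fun q => (c q).1) := by
      intro q q' h
      have h2 : c q = c q' := Subtype.ext h
      exact Subtype.ext (by rw [← hc q, ← hc q', h2])
    refine ⟨Set.range (fun q => (c q).1), K, ?_, ?_, hK1, ?_, ?_⟩
    · rintro _ ⟨q, rfl⟩
      exact (c q).2.1
    · rw [Cardinal.mk_range_eq _ hcinj]
      exact himg
    · rintro _ ⟨q, rfl⟩
      exact (c q).2.2.1
    · rintro _ ⟨q, rfl⟩ _ ⟨q', rfl⟩ hne x hx hx'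
      by_contra hxK
      have key : ∀ q : Set.range y, x ∈ R (c q).1 → q.1 = x ∨ q.1 ∈ out x := by
        intro q hx
        have h1 := hy1 (c q)
        have h2 := hy2 (c q)
        rw [hc q] at h1 h2
        rcases (hR (c q).1).2 _ h1 x hx with h | h | h
        · exact Or.inl h
        · exact Or.inr h
        · rw [h2] at h
          exact absurd h hxK
      have ho : ∀ q : Set.range y, out q.1 = K := by
        intro q
        rw [← hc q]
        exact hy2 (c q)
      have hir : ∀ q : Set.range y, q.1 ∉ K := by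
        intro q h
        have h2 := hT.irr q.1
        rw [ho q] at h2
        exact h2 h
      have hqq : q.1 = q'.1 := by
        rcases key q hx with h | h <;> rcases key q' hx' with h' | h'
        · rw [h, h']
        · rw [← h, ho q] at h'
          exact absurd h' (hir q')
        · rw [← h', ho q'] at h
          exact absurd h (hir q)
        · rcases hT.chain x _ h _ h' with h3 | h3 | h3
          · exact h3
          · rw [ho q'] at h3
            exact absurd h3 (hir q)
          · rw [ho q] at h3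
            exact absurd h3 (hir q')
      exact hne (by rw [Subtype.ext hqq])

end Pool.Agent.CX
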