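import Mathlib
import Pool.Agent.Lib_helper68.OG9

/-!
# CX: decomposition of powers of `ω`
-/

set_option autoImplicit false
set_option linter.unusedSectionVars false

open Cardinal Ordinal Set

namespace Pool.Agent.CX

open Pool.Agent.H68.OG

/-- cofinal sets in regular cardinals -/
theorem le_mk_of_cofinal {lam : Cardinal.{0}} (hlam : lam.IsRegular) (Z : Set lam.ord.ToType)
    (hZ : ∀ ξ, ∃ i ∈ Z, ξ ≤ i) : lam ≤ #Z := by
  have h1 : IsCofinal Z := fun ξ => by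
    obtain ⟨i, hi, h⟩ := hZ ξ
    exact ⟨i, hi, h⟩
  have h2 := Order.cof_le h1
  rw [Ordinal.cof_toType, hlam.cof_ord] at h2
  exact h2

theorem split_succ (γ : Ordinal.{0}) (V : Type) [LinearOrder V] [WellFoundedLT V] [Nonempty V]
    (A : Set V) (hA : TG A (ω ^ Order.succ γ)) :
    ∃ C : (ℵ₀ : Cardinal.{0}).ord.ToType → Set V, (∀ i, C i ⊆ A ∧ TG (C i) (ω ^ γ)) ∧
      (∀ i j, i < j → ∀ x ∈ C i, ∀ y ∈ C j, x < y) ∧
      ∀ (X : Set V) (Z : Set (ℵ₀ : Cardinal.{0}).ord.ToType), (∀ ξ, ∃ i ∈ Z, ξ ≤ i) →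
        (∀ i ∈ Z, TG (X ∩ C i) (ω ^ γ)) → TG (X ∩ A) (ω ^ Order.succ γ) := by
  have e : (ω : Ordinal.{0}) ^ Order.succ γ = ω ^ γ * (ℵ₀ : Cardinal.{0}).ord := by
    rw [Ordinal.opow_succ, Cardinal.ord_aleph0]
  rw [e] at hA ⊢
  obtain ⟨C, h1, h2, h3⟩ := hA.blocks
  refine ⟨C, fun i => ⟨h1 i, h2 i⟩, h3, ?_⟩
  intro X Z hZ hX
  refine tg_of_blocks h3 Z (le_mk_of_cofinal Cardinal.isRegular_aleph0 Z hZ) ?_
  intro i hi
  refine (hX i hi).mono ?_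
  rintro v ⟨hv1, hv2⟩
  exact ⟨⟨hv1, h1 i hv2⟩, hv2⟩

theorem split_limit (β : Ordinal.{0}) (hβ : Order.IsSuccLimit β) :
    ∃ b : β.cof.ord.ToType → Ordinal.{0}, (∀ i, b i < β) ∧
      ∀ (V : Type) [LinearOrder V] [WellFoundedLT V] [Nonempty V] (A : Set V), TG A (ω ^ β) →
        ∃ C : β.cof.ord.ToType → Set V, (∀ i, C i ⊆ A ∧ TG (C i) (ω ^ b i)) ∧
          (∀ i j, i < j → ∀ x ∈ C i, ∀ y ∈ C j, x < y) ∧
          ∀ (X : Set V) (Z : Set β.cof.ord.ToType), (∀ ξ, ∃ i ∈ Z, ξ ≤ i) →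
            (∀ i ∈ Z, TG (X ∩ C i) (ω ^ b i)) → TG (X ∩ A) (ω ^ β) := by
  obtain ⟨s, hs, hs'⟩ := Ordinal.exists_ord_cof_eq β.ToType
  rw [Ordinal.cof_toType] at hs'
  have hiso : Nonempty (β.cof.ord.ToType ≃o s) := by
    have h1 : Ordinal.type (fun x y : β.cof.ord.ToType => x < y) =
        Ordinal.type (fun x y : s => x < y) := by
      rw [Ordinal.type_toType]
      exact hs'.symm
    obtain ⟨e⟩ := Ordinal.type_eq.1 h1
    exact ⟨OrderIso.ofRelIsoLT e⟩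
  obtain ⟨e⟩ := hiso
  let t := (Ordinal.ToType.mk (o := β)).symm
  let b : β.cof.ord.ToType → Ordinal.{0} := fun i => (t (e i).1).1
  have hb : ∀ i, b i < β := fun i => (t (e i).1).2
  have hbm : ∀ i j, i < j → b i < b j := by
    intro i j hij
    have h1 : (e i).1 < (e j).1 := e.lt_iff_lt.2 hij
    exact t.lt_iff_lt.2 h1
  have hbc : ∀ c < β, ∃ i, c ≤ b i := by
    intro c hc
    obtain ⟨x, hx, hcx⟩ := hs (t.symm ⟨c, hc⟩)
    refine ⟨e.symm ⟨x, hx⟩, ?_⟩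
    have h1 : t (t.symm ⟨c, hc⟩) ≤ t x := t.le_iff_le.2 hcx
    rw [OrderIso.apply_symm_apply] at h1
    show c ≤ (t (e (e.symm ⟨x, hx⟩)).1).1
    rw [OrderIso.apply_symm_apply]
    exact h1
  have hpow : ∀ i (x : Ordinal.{0}), x < ω ^ b i → ω ^ b i + x < ω ^ Order.succ (b i) := by
    intro i x hx
    have h1 : (ω : Ordinal.{0}) ^ b i + x < ω ^ b i + ω ^ b i := (add_lt_add_iff_left _).2 hx
    refine h1.trans_le ?_
    rw [Ordinal.opow_succ, ← Ordinal.mul_two]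
    refine mul_le_mul_right ?_ _
    exact (Ordinal.natCast_lt_omega0 2).le
  refine ⟨b, hb, ?_⟩
  intro V _ _ _ A hA
  obtain ⟨g, hg, hm⟩ := hA
  have hlt : ∀ i (x : Ordinal.{0}), x < ω ^ b i → ω ^ b i + x < ω ^ β := by
    intro i x hx
    refine (hpow i x hx).trans_le ?_
    exact Ordinal.opow_le_opow_right Ordinal.omega0_pos (Order.succ_le_of_lt (hb i))
  have hC : ∀ i, {v | ∃ x < ω ^ b i, v = g (ω ^ b i + x)} ⊆ A := by
    rintro i _ ⟨x, hx, rfl⟩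
    exact hg _ (hlt i x hx)
  refine ⟨fun i => {v | ∃ x < ω ^ b i, v = g (ω ^ b i + x)}, fun i => ⟨hC i, ?_⟩, ?_, ?_⟩
  · exact ⟨fun x => g (ω ^ b i + x), fun x hx => ⟨x, hx, rfl⟩, fun x y hxy hy =>
      hm _ _ ((add_lt_add_iff_left _).2 hxy) (hlt i y hy)⟩
  · rintro i j hij _ ⟨x, hx, rfl⟩ _ ⟨y, hy, rfl⟩
    refine hm _ _ ?_ (hlt j y hy)
    refine (hpow i x hx).trans_le ?_
    refine (Ordinal.opow_le_opow_right Ordinal.omega0_pos
      (Order.succ_le_of_lt (hbm i j hij))).trans le_self_add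
  · intro X Z hZ hX
    refine tg_of_forall_lt ?_
    intro c hc
    obtain ⟨b', hb', hcb⟩ := (Ordinal.lt_opow_of_isSuccLimit Ordinal.omega0_ne_zero hβ).1 hc
    obtain ⟨i, hi⟩ := hbc b' hb'
    obtain ⟨j, hj, hij⟩ := hZ i
    refine ⟨ω ^ b j, hcb.trans_le ?_, (hX j hj).mono ?_⟩
    · refine Ordinal.opow_le_opow_right Ordinal.omega0_pos (hi.trans ?_)
      rcases hij.eq_or_lt with h | h
      · rw [h]
      · exact (hbm i j h).le
    · rintro v ⟨hv1, hv2⟩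
      exact ⟨hv1, hC j hv2⟩

/-- `ω ^ β` is decomposed into regularly many smaller powers. -/
theorem split_opow (β : Ordinal.{0}) (hβ : β ≠ 0) :
    ∃ (lam : Cardinal.{0}) (b : lam.ord.ToType → Ordinal.{0}), lam.IsRegular ∧
      (lam = ℵ₀ ∨ lam ≤ β.card) ∧ (∀ i, b i < β) ∧
      ∀ (V : Type) [LinearOrder V] [WellFoundedLT V] [Nonempty V] (A : Set V), TG A (ω ^ β) →
        ∃ C : lam.ord.ToType → Set V, (∀ i, C i ⊆ A ∧ TG (C i) (ω ^ b i)) ∧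
          (∀ i j, i < j → ∀ x ∈ C i, ∀ y ∈ C j, x < y) ∧
          ∀ (X : Set V) (Z : Set lam.ord.ToType), (∀ ξ, ∃ i ∈ Z, ξ ≤ i) →
            (∀ i ∈ Z, TG (X ∩ C i) (ω ^ b i)) → TG (X ∩ A) (ω ^ β) := by
  rcases Ordinal.zero_or_succ_or_isSuccLimit β with h0 | ⟨s, rfl⟩ | hl
  · exact absurd h0 hβ
  · exact ⟨ℵ₀, fun _ => s, Cardinal.isRegular_aleph0, Or.inl rfl, fun _ => Order.lt_succ s,
      fun V _ _ _ A hA => split_succ s V A hA⟩
  · obtain ⟨b, hb, h⟩ := split_limit β hl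
    exact ⟨β.cof, b, Cardinal.isRegular_cof hl, Or.inr (Ordinal.cof_le_card β), hb, h⟩

end Pool.Agent.CX
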