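import Mathlib
import Pool.Agent.Lib_helper68.OG16
import Pool.Agent.Lib_helper80.CX.Node
import Pool.Agent.Lib_helper80.CX.Split

/-!
# CX: minimal points of a generic set have large type
-/

set_option autoImplicit false
set_option linter.unusedSectionVars false

open Cardinal Ordinal Set

namespace Pool.Agent.CX

open Pool.Agent.H68.OG Pool.Agent.CP

/-- the space `2 ^ W` is not the union of `κ` nowhere dense closed sets, `κ = #W` -/
def Cov (W : Type) : Prop :=
  ∀ D : W → Set (W → Bool), (∀ i, IsOpen (D i) ∧ Dense (D i)) → ∃ x, ∀ i, x ∈ D i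

section Gen

variable {V W : Type} [LinearOrder V] [WellFoundedLT V] [Nonempty V]

/-- the minimal points of the set coded by `x` -/
def Xs (out : V → Finset V) (r : V → W) (x : W → Bool) : Set V :=
  {v | x (r v) = true ∧ ∀ u ∈ out v, x (r u) = false}

theorem Xs_free (out : V → Finset V) (r : V → W) (x : W → Bool) :
    ∀ v ∈ Xs out r x, ∀ w ∈ Xs out r x, w ∉ out v := by
  rintro v ⟨-, hv⟩ w ⟨hw, -⟩ h
  have := hv w h
  rw [hw] at this
  exact Bool.noConfusion this

/-- patterns are open -/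
theorem open_pattern (r : V → W) (K L K0 : Finset V) :
    IsOpen {x : W → Bool | ∀ v ∈ K, v ∉ K0 → (x (r v) = true ↔ v ∈ L)} := by
  have h : {x : W → Bool | ∀ v ∈ K, v ∉ K0 → (x (r v) = true ↔ v ∈ L)} =
      ⋂ v ∈ K, {x : W → Bool | v ∉ K0 → (x (r v) = true ↔ v ∈ L)} := by
    ext x
    simp only [Set.mem_ofPred_eq, Set.mem_iInter]
  rw [h]
  refine isOpen_biInter_finset ?_
  intro v _
  have h2 : {x : W → Bool | v ∉ K0 → (x (r v) = true ↔ v ∈ L)} =
      (fun x : W → Bool => x (r v)) ⁻¹' {b | v ∉ K0 → (b = true ↔ v ∈ L)} := rfl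
  rw [h2]
  exact (isOpen_discrete _).preimage (continuous_apply (r v))

/-- basic neighbourhoods -/
theorem nbhd {U : Set (W → Bool)} (hU : IsOpen U) {x : W → Bool} (hx : x ∈ U) :
    ∃ F : Finset W, ∀ y : W → Bool, (∀ w ∈ F, y w = x w) → y ∈ U := by
  obtain ⟨I, u, h1, h2⟩ := isOpen_pi_iff.1 hU x hx
  refine ⟨I, fun y hy => h2 ?_⟩
  intro w hw
  have hw' : w ∈ I := by simpa using hw
  rw [hy w hw']
  exact (h1 w hw').2

theorem dense_of_nbhd {D : Set (W → Bool)}
    (h : ∀ (x : W → Bool) (F : Finset W), ∃ y ∈ D, ∀ w ∈ F, y w = x w) : Dense D := by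
  rw [dense_iff_inter_open]
  rintro U hU ⟨x, hx⟩
  obtain ⟨F, hF⟩ := nbhd hU hx
  obtain ⟨y, hy, hyF⟩ := h x F
  exact ⟨y, hF y hyF, hy⟩

/-- the branching step: some child beyond `ξ` follows its pattern -/
theorem branch {I : Type} [LinearOrder I] (r : V → W) (hr : Function.Injective r)
    (K L : I → Finset V) (Z : Set I) (K0 : Finset V)
    (hfind : ∀ (ξ : I) (F : Finset W), ∃ i ∈ Z, ξ ≤ i ∧ (∀ v ∈ L i, v ∉ K0) ∧
      ∀ v ∈ K i, v ∉ K0 → r v ∉ F) (ξ : I) :
    IsOpen {x : W → Bool | ∃ i ∈ Z, ξ ≤ i ∧ (∀ v ∈ L i, v ∉ K0) ∧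
      ∀ v ∈ K i, v ∉ K0 → (x (r v) = true ↔ v ∈ L i)} ∧
    Dense {x : W → Bool | ∃ i ∈ Z, ξ ≤ i ∧ (∀ v ∈ L i, v ∉ K0) ∧
      ∀ v ∈ K i, v ∉ K0 → (x (r v) = true ↔ v ∈ L i)} := by
  classical
  constructor
  · have h : {x : W → Bool | ∃ i ∈ Z, ξ ≤ i ∧ (∀ v ∈ L i, v ∉ K0) ∧
        ∀ v ∈ K i, v ∉ K0 → (x (r v) = true ↔ v ∈ L i)} =
        ⋃ i : {i | i ∈ Z ∧ ξ ≤ i ∧ ∀ v ∈ L i, v ∉ K0},
          {x : W → Bool | ∀ v ∈ K i.1, v ∉ K0 → (x (r v) = true ↔ v ∈ L i.1)} := by
      ext x
      simp only [Set.mem_ofPred_eq, Set.mem_iUnion]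
      constructor
      · rintro ⟨i, h1, h2, h3, h4⟩
        exact ⟨⟨i, h1, h2, h3⟩, h4⟩
      · rintro ⟨⟨i, h1, h2, h3⟩, h4⟩
        exact ⟨i, h1, h2, h3, h4⟩
    rw [h]
    exact isOpen_iUnion fun i => open_pattern r _ _ _
  · refine dense_of_nbhd ?_
    intro x F
    obtain ⟨i, h1, h2, h3, h4⟩ := hfind ξ F
    refine ⟨fun w => if w ∈ F then x w else decide (∃ v ∈ L i, r v = w), ⟨i, h1, h2, h3, ?_⟩, ?_⟩
    · intro v hv hvK
      beta_reduce
      rw [if_neg (h4 v hv hvK), decide_eq_true_iff]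
      constructor
      · rintro ⟨u, hu, huv⟩
        rw [← hr huv]
        exact hu
      · intro hvL
        exact ⟨v, hvL, rfl⟩
    · intro w hw
      beta_reduce
      rw [if_pos hw]

/-- The main induction. -/
theorem gen {κ : Cardinal.{0}} (hκ : ℵ₀ ≤ κ) (hVκ : #V ≤ κ) {out : V → Finset V} (hT : Tr out)
    (r : V → W) (hr : Function.Injective r) (β : Ordinal.{0}) :
    ∀ A : Set V, TG A (ω ^ β) → ∃ (K L : Finset V) (D : Set (Set (W → Bool))),
      Cl out K ∧ (β ≠ 0 → L = ∅) ∧ (∀ v ∈ L, v ∈ A) ∧ #D ≤ κ ∧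
      (∀ U ∈ D, IsOpen U ∧ Dense U) ∧
      ∀ x : W → Bool, (∀ U ∈ D, x ∈ U) → (∀ v ∈ K, (x (r v) = true ↔ v ∈ L)) →
        TG (Xs out r x ∩ A) (ω ^ β) := by
  classical
  induction β using WellFoundedLT.induction with
  | ind β IH =>
    intro A hA
    rcases eq_or_ne β 0 with rfl | hβ
    · rw [Ordinal.opow_zero] at hA ⊢
      obtain ⟨v, hv⟩ := hA.nonempty zero_lt_one
      refine ⟨insert v (out v), {v}, ∅, ⟨?_, ?_⟩, fun h => absurd rfl h, ?_, ?_, ?_, ?_⟩
      · intro x hx
        rcases Finset.mem_insert.1 hx with rfl | hx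
        · exact Finset.subset_insert _ _
        · exact (hT.trans v x hx).trans (Finset.subset_insert _ _)
      · intro x hx y hy
        rcases Finset.mem_insert.1 hx with rfl | hx
        · rcases Finset.mem_insert.1 hy with rfl | hy
          · exact Or.inl rfl
          · exact Or.inr (Or.inr hy)
        · rcases Finset.mem_insert.1 hy with rfl | hy
          · exact Or.inr (Or.inl hx)
          · exact hT.chain v x hx y hy
      · intro w hw
        rw [Finset.mem_singleton.1 hw]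
        exact hv
      · rw [Cardinal.mk_eq_zero]
        exact zero_le
      · intro U hU
        exact absurd hU (Set.notMem_empty U)
      · intro x _ hx
        refine tg_one (v := v) ⟨⟨?_, ?_⟩, hv⟩
        · exact (hx v (Finset.mem_insert_self _ _)).2 (Finset.mem_singleton_self v)
        · intro u hu
          have h1 := hx u (Finset.mem_insert_of_mem hu)
          by_contra hcon
          rw [Bool.not_eq_false] at hcon
          have h2 := Finset.mem_singleton.1 (h1.1 hcon)
          rw [h2] at hu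
          exact hT.irr v hu
    · obtain ⟨lam, b, hlam, hlamβ, hb, hsplit⟩ := split_opow β hβ
      obtain ⟨C, hC1, hC2, hC3⟩ := hsplit V A hA
      -- `lam ≤ κ`
      have hβκ : β.card ≤ κ := by
        have h1 : β ≤ ω ^ β := Ordinal.right_le_opow β Ordinal.one_lt_omega0
        have h2 : (ω ^ β : Ordinal.{0}) ≤ typ A := le_typ_of_tg hA
        have h3 : β.card ≤ (typ A).card := Ordinal.card_le_card (h1.trans h2)
        unfold typ at h3
        rw [Ordinal.card_type] at h3
        exact h3.trans ((Cardinal.mk_set_le A).trans hVκ)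
      have hlamκ : lam ≤ κ := by
        rcases hlamβ with h | h
        · rw [h]
          exact hκ
        · exact h.trans hβκ
      choose K L D hK hL1 hL2 hD1 hD2 hD3 using fun i => IH (b i) (hb i) (C i) (hC1 i).2
      have hmk : Cardinal.mk lam.ord.ToType = lam := by rw [Cardinal.mk_toType, Cardinal.card_ord]
      obtain ⟨Z, K0, -, hZ, hK0, hZK, hZd⟩ := node_reg hT hlam K hK Set.univ (by
        rw [Cardinal.mk_univ, hmk])
      have hdisjC : ∀ i j v, v ∈ C i → v ∈ C j → i = j := by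
        intro i j v hi hj
        rcases lt_trichotomy i j with h | h | h
        · exact absurd (hC2 i j h v hi v hj) (lt_irrefl _)
        · exact h
        · exact absurd (hC2 j i h v hj v hi) (lt_irrefl _)
      have hfind : ∀ (ξ : lam.ord.ToType) (F : Finset W), ∃ i ∈ Z, ξ ≤ i ∧
          (∀ v ∈ L i, v ∉ K0) ∧ ∀ v ∈ K i, v ∉ K0 → r v ∉ F := by
        intro ξ F
        have hbad1 : {i | i ∈ Z ∧ ∃ v ∈ L i, v ∈ K0}.Finite := by
          refine (K0.finite_toSet.biUnion (t := fun v => {i | v ∈ L i}) ?_).subset ?_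
          · intro v _
            refine Set.Subsingleton.finite ?_
            intro i hi j hj
            exact hdisjC i j v (hL2 i v hi) (hL2 j v hj)
          · rintro i ⟨-, v, hv, hvK⟩
            exact Set.mem_biUnion (x := v) hvK hv
        have hbad2 : {i | i ∈ Z ∧ ∃ v ∈ K i, v ∉ K0 ∧ r v ∈ F}.Finite := by
          refine (F.finite_toSet.biUnion
            (t := fun w => {i | i ∈ Z ∧ ∃ v ∈ K i, v ∉ K0 ∧ r v = w}) ?_).subset ?_
          · intro w _
            refine Set.Subsingleton.finite ?_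
            rintro i ⟨hi, v, hv, hvK, hvw⟩ j ⟨hj, v', hv', -, hvw'⟩
            by_contra hne
            have hvv : v = v' := hr (hvw.trans hvw'.symm)
            subst hvv
            exact hvK (hZd i hi j hj hne v hv hv')
          · rintro i ⟨hi, v, hv, hvK, hvF⟩
            exact Set.mem_biUnion (x := r v) hvF ⟨hi, v, hv, hvK, rfl⟩
        have hlt : #(Set.Iio ξ) < lam := Cardinal.mk_Iio_toType_ord_lt ξ
        have hbig : ¬ (Z ⊆ Set.Iio ξ ∪ ({i | i ∈ Z ∧ ∃ v ∈ L i, v ∈ K0} ∪
            {i | i ∈ Z ∧ ∃ v ∈ K i, v ∉ K0 ∧ r v ∈ F})) := by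
          intro hsub
          refine absurd hZ (not_le.2 ?_)
          refine (Cardinal.mk_le_mk_of_subset hsub).trans_lt
            ((Cardinal.mk_union_le _ _).trans_lt (Cardinal.add_lt_of_lt hlam.1 hlt ?_))
          exact (Cardinal.lt_aleph0_iff_set_finite.2 (hbad1.union hbad2)).trans_le hlam.1
        obtain ⟨i, hi, hi'⟩ := Set.not_subset.1 hbig
        simp only [Set.mem_union, Set.mem_Iio, Set.mem_ofPred_eq, not_or, not_lt, not_and,
          not_exists] at hi'
        obtain ⟨h1, h2, h3⟩ := hi'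
        exact ⟨i, hi, h1, fun v hv => h2 hi v hv, fun v hv hvK => h3 hi v hv hvK⟩
      have hbr := branch r hr K L Z K0 hfind
      refine ⟨K0, ∅, (⋃ i, D i) ∪ Set.range (fun ξ : lam.ord.ToType =>
        {x : W → Bool | ∃ i ∈ Z, ξ ≤ i ∧ (∀ v ∈ L i, v ∉ K0) ∧
          ∀ v ∈ K i, v ∉ K0 → (x (r v) = true ↔ v ∈ L i)}), hK0, fun _ => rfl, ?_, ?_, ?_, ?_⟩
      · intro v hv
        exact absurd hv (Finset.notMem_empty v)
      · refine (Cardinal.mk_union_le _ _).trans (Cardinal.add_le_of_le hκ ?_ ?_)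
        · refine (Cardinal.mk_iUnion_le _).trans ?_
          refine Cardinal.mul_le_of_le hκ (hmk.le.trans hlamκ) ?_
          exact ciSup_le' hD1
        · exact Cardinal.mk_range_le.trans (hmk.le.trans hlamκ)
      · rintro U (hU | ⟨ξ, rfl⟩)
        · obtain ⟨i, hi⟩ := Set.mem_iUnion.1 hU
          exact hD2 i U hi
        · exact hbr ξ
      · intro x hx hx0
        refine hC3 _ {i | ∀ v ∈ K i, (x (r v) = true ↔ v ∈ L i)} ?_ ?_
        · intro ξ
          obtain ⟨i, hi, h1, h2, h3⟩ := hx _ (Or.inr ⟨ξ, rfl⟩)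
          refine ⟨i, ?_, h1⟩
          intro v hv
          by_cases hvK : v ∈ K0
          · rw [hx0 v hvK]
            constructor
            · intro h
              exact absurd h (Finset.notMem_empty v)
            · intro h
              exact absurd hvK (h2 v h)
          · exact h3 v hv hvK
        · intro i hi
          exact hD3 i x (fun U hU => hx U (Or.inl (Set.mem_iUnion.2 ⟨i, hU⟩))) hi

end Gen

end Pool.Agent.CX
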