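import Mathlib
import Pool.Agent.Lib_helper80.CX.Gen
import Pool.Agent.Lib_helper80.CQ.Levels

/-!
# CX: the path property from covering numbers of the meager ideals
-/

set_option autoImplicit false
set_option linter.unusedSectionVars false

open Cardinal Ordinal Set

namespace Pool.Agent.CX

open Pool.Agent.H68.OG Pool.Agent.CP

/-- erasing finitely many coordinates -/
theorem erase_dense {W : Type} (E : Set W) (hE : E.Finite) {U : Set (W → Bool)}
    (hU : IsOpen U) (hU' : Dense U) : ∀ m : (W → Bool) → (W → Bool),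
      (∀ x w, w ∈ E → m x w = false) → (∀ x w, w ∉ E → m x w = x w) →
      IsOpen (m ⁻¹' U) ∧ Dense (m ⁻¹' U) := by
  classical
  intro m hm1 hm2
  constructor
  · refine hU.preimage (continuous_pi ?_)
    intro w
    by_cases hw : w ∈ E
    · have : (fun x : W → Bool => m x w) = fun _ => false := by
        funext x
        exact hm1 x w hw
      rw [this]
      exact continuous_const
    · have : (fun x : W → Bool => m x w) = fun x => x w := by
        funext x
        exact hm2 x w hw
      rw [this]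
      exact continuous_apply w
  · refine dense_of_nbhd ?_
    intro x F
    -- the neighbourhood of `m x` given by `F ∪ E`
    have hN : IsOpen {y : W → Bool | ∀ w ∈ F ∪ hE.toFinset, y w = m x w} := by
      have h : {y : W → Bool | ∀ w ∈ F ∪ hE.toFinset, y w = m x w} =
          ⋂ w ∈ F ∪ hE.toFinset, {y : W → Bool | y w = m x w} := by
        ext y
        simp only [Set.mem_ofPred_eq, Set.mem_iInter]
      rw [h]
      refine isOpen_biInter_finset ?_
      intro w _
      have h2 : {y : W → Bool | y w = m x w} = (fun y : W → Bool => y w) ⁻¹' {m x w} := rfl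
      rw [h2]
      exact (isOpen_discrete _).preimage (continuous_apply w)
    obtain ⟨y, hy1, hy2⟩ := dense_iff_inter_open.1 hU' _ hN ⟨m x, fun w _ => rfl⟩
    refine ⟨fun w => if w ∈ E then x w else y w, ?_, ?_⟩
    · have : m (fun w => if w ∈ E then x w else y w) = y := by
        funext w
        by_cases hw : w ∈ E
        · rw [hm1 _ w hw]
          have h3 := hy1 w (Finset.mem_union_right _ (by simpa using hw))
          rw [h3, hm1 _ w hw]
        · rw [hm2 _ w hw, if_neg hw]
      show m (fun w => if w ∈ E then x w else y w) ∈ U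
      rw [this]
      exact hy2
    · intro w hw
      beta_reduce
      by_cases hwE : w ∈ E
      · rw [if_pos hwE]
      · rw [if_neg hwE]
        have h3 := hy1 w (Finset.mem_union_left _ hw)
        rw [h3, hm2 _ w hwE]

section Final

variable {V : Type} [LinearOrder V] [WellFoundedLT V] [Nonempty V]

/-- the theorem for forests -/
theorem forest_cov {κ : Cardinal.{0}} (hκ : ℵ₀ ≤ κ) (hC : Cov κ.ord.ToType) (hVκ : #V ≤ κ)
    {out : V → Finset V} (hT : Tr out) {α : Ordinal.{0}} (hα : ω ∣ α)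
    (hV : TG (Set.univ : Set V) α) :
    ∃ X : Set V, (∀ x ∈ X, ∀ y ∈ X, y ∉ out x) ∧ TG X α := by
  classical
  have hmk : #κ.ord.ToType = κ := by rw [Cardinal.mk_toType, Cardinal.card_ord]
  obtain ⟨r⟩ : Nonempty (V ↪ κ.ord.ToType) := by
    rw [← Cardinal.le_def, hmk]
    exact hVκ
  obtain ⟨P, hP, B, s, hs, hB, hX⟩ := rd_all α hα V Set.univ hV
  choose K L D hK hL1 hL2 hD1 hD2 hD3 using fun p =>
    gen hκ hVκ hT (r : V → κ.ord.ToType) r.injective (s p) (B p) (hB p)
  -- the finite set to be avoided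
  let E : Set κ.ord.ToType := ⋃ p, (r '' (K p : Set V))
  have hE : E.Finite := Set.finite_iUnion fun p => (K p).finite_toSet.image r
  let m : (κ.ord.ToType → Bool) → (κ.ord.ToType → Bool) := fun x w => if w ∈ E then false else x w
  have hm1 : ∀ x w, w ∈ E → m x w = false := fun x w hw => if_pos hw
  have hm2 : ∀ x w, w ∉ E → m x w = x w := fun x w hw => if_neg hw
  -- an enumeration of the dense sets
  have hcard : #(⋃ p, D p : Set (Set (κ.ord.ToType → Bool))) ≤ κ := by
    refine (Cardinal.mk_iUnion_le _).trans ?_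
    refine Cardinal.mul_le_of_le hκ ?_ ?_
    · exact (Cardinal.lt_aleph0_of_finite P).le.trans hκ
    · exact ciSup_le' hD1
  obtain ⟨e⟩ : Nonempty ((⋃ p, D p : Set (Set (κ.ord.ToType → Bool))) ↪ κ.ord.ToType) := by
    rw [← Cardinal.le_def, hmk]
    exact hcard
  have hDU : ∀ U ∈ (⋃ p, D p : Set (Set (κ.ord.ToType → Bool))), IsOpen U ∧ Dense U := by
    intro U hU
    obtain ⟨p, hp⟩ := Set.mem_iUnion.1 hU
    exact hD2 p U hp
  obtain ⟨x, hx⟩ := hC (fun w => if h : ∃ U : (⋃ p, D p : Set (Set (κ.ord.ToType → Bool))), e U = w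
    then m ⁻¹' h.choose.1 else Set.univ) (by
      intro w
      by_cases h : ∃ U : (⋃ p, D p : Set (Set (κ.ord.ToType → Bool))), e U = w
      · rw [dif_pos h]
        obtain ⟨h1, h2⟩ := hDU _ h.choose.2
        exact erase_dense E hE h1 h2 m hm1 hm2
      · rw [dif_neg h]
        exact ⟨isOpen_univ, dense_univ⟩)
  have hmx : ∀ p, ∀ U ∈ D p, m x ∈ U := by
    intro p U hU
    have hU' : U ∈ (⋃ p, D p : Set (Set (κ.ord.ToType → Bool))) := Set.mem_iUnion.2 ⟨p, hU⟩
    have h1 := hx (e ⟨U, hU'⟩)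
    have h : ∃ U' : (⋃ p, D p : Set (Set (κ.ord.ToType → Bool))), e U' = e ⟨U, hU'⟩ := ⟨_, rfl⟩
    rw [dif_pos h] at h1
    have h2 : h.choose = ⟨U, hU'⟩ := e.injective h.choose_spec
    rw [h2] at h1
    exact h1
  refine ⟨Xs out r (m x), Xs_free out r (m x), ?_⟩
  have h3 := hX (Xs out r (m x)) (fun p => ?_)
  · rw [Set.inter_univ] at h3
    exact h3
  · refine hD3 p (m x) (hmx p) ?_
    intro v hv
    rw [hL1 p (hs p)]
    have hvE : r v ∈ E := Set.mem_iUnion.2 ⟨p, v, hv, rfl⟩
    rw [hm1 x _ hvE]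
    simp

end Final

/-- the theorem for ordinals -/
theorem pi_of_cov {κ : Cardinal.{0}} (hκ : ℵ₀ ≤ κ) (hC : Cov κ.ord.ToType) {α : Ordinal.{0}}
    (hα : ω ∣ α) (hακ : α.card ≤ κ) : PI α := by
  rcases eq_or_ne α 0 with rfl | hα0
  · exact pi_zero
  intro G
  by_cases hG : ∃ f : ℕ → α.ToType, Function.Injective f ∧ ∀ n, G.Adj (f n) (f (n + 1))
  · exact Or.inl hG
  · right
    have hN : Nonempty α.ToType := Ordinal.nonempty_toType_iff.2 hα0
    obtain ⟨out, hT, hout⟩ := exists_forest G hG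
    obtain ⟨X, hX1, hX2⟩ := forest_cov hκ hC (by rw [Cardinal.mk_toType]; exact hακ) hT hα
      (tg_iff.2 (typ_univ α).ge)
    refine ⟨X, ?_, typ_eq_of_tg hX2⟩
    intro x hx y hy hadj
    rcases hout x y hadj with h | h
    · exact hX1 y hy x hx h
    · exact hX1 x hx y hy h

/-- all limit ordinals -/
theorem pi_all {lam : Cardinal.{0}} (hlam : lam.IsRegular) (hlam0 : ℵ₀ < lam)
    (hR : Pool.Agent.CQ.RF lam.ord.ToType) (hC : ∀ κ < lam, ℵ₀ ≤ κ → Cov κ.ord.ToType)
    {α : Ordinal.{0}} (hα : ω ∣ α) : PI α := by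
  refine Pool.Agent.CQ.pi_of_mod' hlam hlam0 hR α hα ?_
  have h0 : lam.ord ≠ 0 := (Cardinal.ord_pos.2 hlam.pos).ne'
  have hlt : α % lam.ord < lam.ord := Ordinal.mod_lt α h0
  have hd : ω ∣ α % lam.ord := by
    have h1 : ω ∣ lam.ord := by
      have h6 := ord_dvd_ord (μ := ℵ₀) (κ := lam) le_rfl hlam.1
      rwa [Cardinal.ord_aleph0] at h6
    have hdm := Ordinal.div_add_mod α lam.ord
    rw [← hdm] at hα
    exact (Ordinal.dvd_add_iff (h1.mul_right _)).1 hα
  rcases lt_or_ge (α % lam.ord).card ℵ₀ with h | h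
  · exact pi_countable hd h.le
  · exact pi_of_cov h (hC _ (Cardinal.lt_ord.1 hlt) h) hd le_rfl

end Pool.Agent.CX
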