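import Mathlib
import Pool.Agent.Lib_helper80.CX.Main
import Pool.Agent.Lib_helper80.CW.Level2

/-!
# CX: all levels, with covering numbers below `λ`
-/

set_option autoImplicit false
set_option linter.unusedSectionVars false

open Cardinal Ordinal Set

namespace Pool.Agent.CX

open Pool.Agent.H68.OG Pool.Agent.CP Pool.Agent.CV Pool.Agent.CW

/-- Levels below `λ` are harmless. -/
theorem pi_levels3 {lam : Cardinal.{0}} (hC : ∀ κ < lam, ℵ₀ ≤ κ → Cov κ.ord.ToType)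
    (α : Ordinal.{0}) (hd : ω ∣ α)
    (hs : ∀ κ : Cardinal.{0}, lam ≤ κ → ℵ₀ < κ → ¬ κ.IsRegular → ¬ Hl κ →
      α % (Order.succ κ).ord < κ.ord)
    (hr : ∀ κ : Cardinal.{0}, lam ≤ κ → κ.IsRegular → ℵ₀ < κ →
      CQ.Part κ (α % (Order.succ κ).ord / κ.ord)) : PI α := by
  refine pi_levels_of (fun κ β => lam ≤ κ → (¬ κ.IsRegular → ¬ Hl κ → β < κ.ord) ∧
    (κ.IsRegular → CQ.Part κ (β / κ.ord))) ?_ ?_ α hd
    fun κ hκ hl => ⟨hs κ hl hκ, fun h => hr κ hl h hκ⟩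
  · intro κ hκ β hβ hdβ hQ hP
    rcases lt_or_ge κ lam with hlt | hle
    · refine pi_of_cov hκ.le (hC κ hlt hκ.le) hdβ ?_
      rw [Cardinal.lt_ord] at hβ
      exact Order.lt_succ_iff.1 hβ
    · have hQ' := hQ hle
      by_cases hreg : κ.IsRegular
      · exact level_part hreg hκ hβ (hQ'.2 hreg) hdβ hP
      · by_cases hl : Hl κ
        · exact level_hl hκ hl hβ hdβ hP
        · have h1 := hQ'.1 hreg hl
          rwa [Ordinal.mod_eq_of_lt h1] at hP
  · intro κ hκ β hβ _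
    refine ⟨fun _ _ => hβ, fun h => ?_⟩
    rw [Ordinal.div_eq_zero_of_lt hβ]
    exact CQ.part_zero hκ.le

/-- the criterion when GCH holds from `λ` on -/
theorem pi_gch3 {lam : Cardinal.{0}} (hlam : lam.IsRegular)
    (hC : ∀ κ < lam, ℵ₀ ≤ κ → Cov κ.ord.ToType)
    (h2 : ∀ μ < lam, (2 : Cardinal.{0}) ^ μ ≤ lam)
    (hgch : ∀ κ : Cardinal.{0}, lam ≤ κ → (2 : Cardinal.{0}) ^ κ = Order.succ κ)
    (α : Ordinal.{0}) (hd : ω ∣ α) :
    PI α ↔ ∀ κ : Cardinal.{0}, lam ≤ κ → κ.IsRegular → ℵ₀ < κ →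
      CQ.Part κ (α % (Order.succ κ).ord / κ.ord) := by
  refine ⟨fun h κ hle hκ hκ0 => CQ.part_of_pi hκ hκ0 (fun μ hμ => ?_) h, fun h =>
    pi_levels3 hC α hd (fun κ hle hκ hreg hn => absurd ?_ hn) h⟩
  · rcases lt_or_ge μ lam with h1 | h1
    · exact (h2 μ h1).trans hle
    · rw [hgch μ h1]
      exact Order.succ_le_of_lt hμ
  · refine Or.inr fun μ hμ => ?_
    have hlt : lam < κ := by
      refine lt_of_le_of_ne hle ?_
      rintro rfl
      exact hreg hlam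
    have hθ0 := aleph0_le_cof' hκ
    have hθ := cof_lt_self hκ hreg
    set x := max μ κ.ord.cof with hx
    have hx0 : ℵ₀ ≤ x := hθ0.trans (le_max_right _ _)
    have hxκ : x < κ := max_lt hμ hθ
    refine lt_of_le_of_lt ?_ (show (2 : Cardinal.{0}) ^ x < κ from ?_)
    · calc μ ^ κ.ord.cof ≤ x ^ κ.ord.cof := Cardinal.power_le_power_right (le_max_left _ _)
        _ ≤ x ^ x := Cardinal.power_le_power_left (aleph0_pos.trans_le hx0).ne' (le_max_right _ _)
        _ = 2 ^ x := Cardinal.power_self_eq hx0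
    · rcases lt_or_ge x lam with h1 | h1
      · exact (h2 x h1).trans_lt hlt
      · rw [hgch x h1]
        exact succ_lt_of_sing hreg hx0 hxκ

end Pool.Agent.CX
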